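import Mathlib
import Pool.Agent.Q43.Tw.Main

set_option autoImplicit false

/-!
# Twin, cousin and sexy cyclic numbers between consecutive cubes: the asymptotic count
-/

namespace Pool.Agent.Results.MP_dca572_nt.CyclicGaps

open Filter Topology

/-- `m` is cyclic: `m ≥ 1` and `gcd(m, φ(m)) = 1`. -/
def IsCyclicNumber (m : ℕ) : Prop := 0 < m ∧ Nat.gcd m (Nat.totient m) = 1

open scoped Classical in
/-- The increasing enumeration of the cyclic numbers, `cyc 0 = 1`, `cyc 1 = 2`, `cyc 2 = 3`, ...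
(the `c_{j+1}` of the problem is `cyc j`). -/
noncomputable def cyc (j : ℕ) : ℕ := Nat.nth IsCyclicNumber j

/-- `T_g(n)`: the number of indices `j` with `n^3 < c_j < c_{j+1} < (n+1)^3` and
`c_{j+1} - c_j = g`. -/
noncomputable def T (g n : ℕ) : ℕ :=
  Nat.card {j : ℕ // n ^ 3 < cyc j ∧ cyc j < cyc (j + 1) ∧ cyc (j + 1) < (n + 1) ^ 3 ∧
    cyc (j + 1) - cyc j = g}

/-- `f` is a positive sequence (on `n ≥ 1`), regularly varying with index `ρ`:
`f(⌊λ n⌋) / f(n) → λ^ρ` for every real `λ > 0`. -/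
def RegularlyVarying (f : ℕ → ℝ) (ρ : ℝ) : Prop :=
  (∀ n : ℕ, 1 ≤ n → 0 < f n) ∧
    ∀ lam : ℝ, 0 < lam → Tendsto (fun n : ℕ => f ⌊lam * n⌋₊ / f n) atTop (𝓝 (lam ^ ρ))

/-- `δ_g(y)`: the proportion of the residue classes `c` modulo `P(y) = ∏_{p ≤ y} p` such that
`c (c + g)` is coprime to `P(y)`. -/
noncomputable def dens (g y : ℕ) : ℝ :=
  (((Finset.range (primorial y)).filter
    (fun c => Nat.Coprime (c * (c + g)) (primorial y))).card : ℝ) / (primorial y : ℝ)

/-- `f_g(n) = 3 n² δ_g(⌊log₂ ⌊log₂ n⌋⌋)`. -/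
noncomputable def f (g n : ℕ) : ℝ := 3 * (n : ℝ) ^ 2 * dens g (Nat.log 2 (Nat.log 2 n))

open Finset
open scoped Classical

lemma isCyc_prime {p : ℕ} (hp : p.Prime) : IsCyclicNumber p := by
  refine ⟨hp.pos, ?_⟩
  rw [Nat.totient_prime hp]
  have h : ¬ p ∣ p - 1 := by
    intro h
    have := Nat.le_of_dvd (by have := hp.two_le; omega) h
    have := hp.two_le
    omega
  exact (Nat.Prime.coprime_iff_not_dvd hp).mpr h

lemma inf : {m : ℕ | IsCyclicNumber m}.Infinite :=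
  Nat.infinite_setOfPred_prime.mono (fun _ hp => isCyc_prime hp)

lemma consecutive {c g : ℕ} (hg : 0 < g) (h0 : IsCyclicNumber c) (h4 : IsCyclicNumber (c+g))
    (h : ∀ e, 0 < e → e < g → ¬ IsCyclicNumber (c+e)) :
    cyc (Nat.count IsCyclicNumber c) = c ∧ cyc (Nat.count IsCyclicNumber c + 1) = c + g := by
  refine ⟨Nat.nth_count h0, ?_⟩
  have h5 : ∀ k, k < g → Nat.count IsCyclicNumber (c+k+1) = Nat.count IsCyclicNumber c + 1 := by
    intro k
    induction k with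
    | zero =>
      intro _
      rw [Nat.add_zero, Nat.count_succ, if_pos h0]
    | succ k ih =>
      intro hk
      rw [Nat.count_succ, if_neg (h (k+1) (by omega) hk)]
      exact ih (by omega)
  have h6 := h5 (g-1) (by omega)
  have h7 : c + (g-1) + 1 = c + g := by omega
  rw [h7] at h6
  rw [← h6]
  exact Nat.nth_count h4

/-- the index set of `T g n`. -/
def Idx (g n : ℕ) : Type := {j : ℕ // n ^ 3 < cyc j ∧ cyc j < cyc (j + 1) ∧ cyc (j + 1) < (n + 1) ^ 3 ∧
    cyc (j + 1) - cyc j = g}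

lemma fin_idx (g n : ℕ) : Finite (Idx g n) := by
  apply Set.Finite.subset (Set.finite_Iio ((n+1)^3))
  rintro j ⟨-, h1, h2, -⟩
  have h3 : j ≤ cyc j := (Nat.nth_strictMono inf).le_apply
  rw [Set.mem_Iio]
  omega

lemma T_le (g n : ℕ) : T g n ≤ (Q43.Tw.PC {0, g} (n^3) (Q43.Tw.HH g n)).card := by
  have hmem : ∀ j : Idx g n, cyc j.1 ∈ Q43.Tw.PC {0, g} (n^3) (Q43.Tw.HH g n) := by
    rintro ⟨j, h1, h2, h3, h4⟩
    have hc1 : IsCyclicNumber (cyc j) := Nat.nth_mem_of_infinite inf j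
    have hc2 : IsCyclicNumber (cyc (j+1)) := Nat.nth_mem_of_infinite inf (j+1)
    have h5 : cyc (j+1) = cyc j + g := by omega
    rw [h5] at hc2 h3
    rw [Q43.Tw.PC, Finset.mem_filter, Finset.mem_Ioc]
    have h6 : (n+1)^3 = n^3 + 3 * n^2 + 3 * n + 1 := by ring
    refine ⟨⟨h1, ?_⟩, ?_⟩
    · show cyc j ≤ n^3 + Q43.Tw.HH g n
      unfold Q43.Tw.HH
      omega
    · intro d hd
      rw [Finset.mem_insert, Finset.mem_singleton] at hd
      rcases hd with rfl | rfl
      · exact hc1.2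
      · exact hc2.2
  have hinj : Function.Injective (fun j : Idx g n =>
      (⟨cyc j.1, hmem j⟩ : {x // x ∈ Q43.Tw.PC {0, g} (n^3) (Q43.Tw.HH g n)})) := by
    intro j j' h
    have h1 : cyc j.1 = cyc j'.1 := congrArg Subtype.val h
    exact Subtype.ext ((Nat.nth_strictMono inf).injective h1)
  have := Nat.card_le_card_of_injective _ hinj
  rw [Nat.card_eq_finsetCard] at this
  exact this

lemma le_T {g n : ℕ} (hg : 0 < g) : (Q43.Tw.PC {0, g} (n^3) (Q43.Tw.HH g n)).card ≤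
    T g n + ∑ e ∈ Finset.Ioo 0 g, (Q43.Tw.PC {0, e, g} (n^3) (Q43.Tw.HH g n)).card := by
  set S := (Q43.Tw.PC {0, g} (n^3) (Q43.Tw.HH g n)).filter
    (fun c => ∀ e, 0 < e → e < g → ¬ IsCyclicNumber (c+e)) with hS
  have hsub : Q43.Tw.PC {0, g} (n^3) (Q43.Tw.HH g n) ⊆ S ∪
      (Finset.Ioo 0 g).biUnion (fun e => Q43.Tw.PC {0, e, g} (n^3) (Q43.Tw.HH g n)) := by
    intro c hc
    rw [Finset.mem_union]
    by_cases h : ∀ e, 0 < e → e < g → ¬ IsCyclicNumber (c+e)
    · left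
      rw [hS, Finset.mem_filter]
      exact ⟨hc, h⟩
    · right
      push Not at h
      obtain ⟨e, he, heg, hce⟩ := h
      rw [Finset.mem_biUnion]
      refine ⟨e, Finset.mem_Ioo.mpr ⟨he, heg⟩, ?_⟩
      rw [Q43.Tw.PC, Finset.mem_filter] at hc ⊢
      refine ⟨hc.1, ?_⟩
      intro d hd
      rw [Finset.mem_insert, Finset.mem_insert, Finset.mem_singleton] at hd
      rcases hd with rfl | rfl | rfl
      · exact hc.2 0 (by simp)
      · exact hce.2
      · exact hc.2 _ (by simp)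
  have h1 := (Finset.card_le_card hsub).trans ((Finset.card_union_le _ _).trans
    (Nat.add_le_add_left Finset.card_biUnion_le _))
  refine h1.trans (Nat.add_le_add_right ?_ _)
  have hc : ∀ c ∈ S, n^3 < c ∧ c + g < (n+1)^3 ∧ IsCyclicNumber c ∧ IsCyclicNumber (c+g) ∧
      (∀ e, 0 < e → e < g → ¬ IsCyclicNumber (c+e)) := by
    intro c hc
    rw [hS, Finset.mem_filter, Q43.Tw.PC, Finset.mem_filter, Finset.mem_Ioc] at hc
    obtain ⟨⟨⟨h2, h3⟩, h4⟩, h5⟩ := hc
    have h6 : (n+1)^3 = n^3 + 3 * n^2 + 3 * n + 1 := by ring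
    unfold Q43.Tw.HH at h3
    refine ⟨h2, by omega, ⟨by omega, ?_⟩, ⟨by omega, h4 g (by simp)⟩, h5⟩
    exact h4 0 (by simp)
  have hmem : ∀ c ∈ S, n ^ 3 < cyc (Nat.count IsCyclicNumber c) ∧
      cyc (Nat.count IsCyclicNumber c) < cyc (Nat.count IsCyclicNumber c + 1) ∧
      cyc (Nat.count IsCyclicNumber c + 1) < (n + 1) ^ 3 ∧
      cyc (Nat.count IsCyclicNumber c + 1) - cyc (Nat.count IsCyclicNumber c) = g := by
    intro c hcS
    obtain ⟨h1, h2, h3, h4, h5⟩ := hc c hcS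
    obtain ⟨h8, h9⟩ := consecutive hg h3 h4 h5
    rw [h8, h9]
    omega
  have hinj : Function.Injective (fun c : S => (⟨Nat.count IsCyclicNumber c.1, hmem c.1 c.2⟩ :
      Idx g n)) := by
    intro c c' h
    have h1 : Nat.count IsCyclicNumber c.1 = Nat.count IsCyclicNumber c'.1 :=
      congrArg Subtype.val h
    have h2 : cyc (Nat.count IsCyclicNumber c.1) = c.1 := Nat.nth_count (hc c.1 c.2).2.2.1
    have h3 : cyc (Nat.count IsCyclicNumber c'.1) = c'.1 := Nat.nth_count (hc c'.1 c'.2).2.2.1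
    apply Subtype.ext
    rw [← h2, ← h3, h1]
  have hfin : Finite (Idx g n) := fin_idx g n
  have := Nat.card_le_card_of_injective (β := Idx g n) _ hinj
  rw [Nat.card_eq_finsetCard] at this
  exact this

lemma dens_eq (g y : ℕ) : dens g y = Q43.Tw.del {0, g} y := by
  unfold dens Q43.Tw.del Q43.Tw.Ad
  congr 2
  apply congrArg Finset.card
  apply Finset.filter_congr
  intro c _
  constructor
  · intro h p hp hpy d hd hpd
    have h1 : p ∣ primorial y := Q43.Cous.dvd_primorial' hp hpy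
    have h2 : p ∣ c * (c + g) := by
      rw [Finset.mem_insert, Finset.mem_singleton] at hd
      rcases hd with rfl | rfl
      · rw [Nat.add_zero] at hpd
        exact hpd.mul_right _
      · exact hpd.mul_left _
    exact (Nat.Prime.not_coprime_iff_dvd.mpr ⟨p, hp, h2, h1⟩) h
  · intro h
    by_contra hcon
    obtain ⟨p, hp, h1, h2⟩ := Nat.Prime.not_coprime_iff_dvd.mp hcon
    have hpy := Q43.Tw.prime_dvd_primorial hp h2
    rcases (Nat.Prime.dvd_mul hp).mp h1 with h3 | h3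
    · exact h p hp hpy 0 (by simp) (by simpa using h3)
    · exact h p hp hpy g (by simp) h3

lemma f_eq (g n : ℕ) : f g n = Q43.Tw.F g n := by
  unfold f Q43.Tw.F
  rw [dens_eq]
  rfl

/-- **The asymptotic count** (Q1, for every even `g ≥ 2`, in particular `g = 2, 4, 6`):
`f_g(n) = 3 n² δ_g(⌊log₂ ⌊log₂ n⌋⌋)` is regularly varying with index `2`, and
`T_g(n) ∼ f_g(n)`. -/
theorem result (g : ℕ) (hg : 0 < g) (he : Even g) :
    RegularlyVarying (f g) 2 ∧ Tendsto (fun n : ℕ => (T g n : ℝ) / f g n) atTop (𝓝 1) := by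
  have h2 : 2 ∣ g := he.two_dvd
  have hf : f g = Q43.Tw.F g := funext (f_eq g)
  rw [hf]
  refine ⟨⟨fun n hn => Q43.Tw.F_pos h2 hn, fun lam hlam => Q43.Tw.F_regular h2 hlam⟩, ?_⟩
  have hpair := Q43.Tw.PC_pair h2
  have htrip : Tendsto (fun n => ∑ e ∈ Finset.Ioo 0 g,
      (((Q43.Tw.PC {0, e, g} (n^3) (Q43.Tw.HH g n)).card : ℝ) / Q43.Tw.F g n)) atTop (𝓝 0) := by
    have := tendsto_finsetSum (Finset.Ioo 0 g) (fun e he' =>
      Q43.Tw.PC_triple (Finset.mem_Ioo.mp he').1 (Finset.mem_Ioo.mp he').2 h2)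
    simpa using this
  have hlow := hpair.sub htrip
  rw [sub_zero] at hlow
  refine tendsto_of_tendsto_of_tendsto_of_le_of_le' hlow hpair ?_ ?_
  · filter_upwards [eventually_ge_atTop 1] with n hn
    have hF := Q43.Tw.F_pos h2 hn
    rw [← Finset.sum_div, ← sub_div]
    gcongr
    have h3 := le_T (n := n) hg
    have h4 : ((Q43.Tw.PC {0, g} (n^3) (Q43.Tw.HH g n)).card : ℝ) ≤ T g n +
        ∑ e ∈ Finset.Ioo 0 g, ((Q43.Tw.PC {0, e, g} (n^3) (Q43.Tw.HH g n)).card : ℝ) := by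
      exact_mod_cast h3
    linarith
  · filter_upwards [eventually_ge_atTop 1] with n hn
    have hF := Q43.Tw.F_pos h2 hn
    gcongr
    exact_mod_cast T_le g n

end Pool.Agent.Results.MP_dca572_nt.CyclicGaps
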